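import Pool.Agent.CRT.Stmts

/-!
# Squad CRT, row CRV: straight segments in a chart are straight paths
-/

namespace Pool.Agent.CRT.H18

open Set Filter Topology MeasureTheory

theorem crv : CrvStmt := by
  intro S φ hφ u v a b s₀ h s hs
  refine ⟨φ, hφ, φ.map_target (h s hs), ?_⟩
  filter_upwards [self_mem_nhdsWithin] with r hr
  refine ⟨φ.map_target (h r hr), ?_⟩
  change φ (φ.symm (v + (r - s₀) • u)) = φ (φ.symm (v + (s - s₀) • u)) + (r - s) • u
  rw [φ.right_inv (h r hr), φ.right_inv (h s hs), add_assoc, ← add_smul]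
  congr 2
  ring

end Pool.Agent.CRT.H18
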